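import Pool.Agent.Helper3.EL.Defs

/-!
# EL-M: average over the row orders
-/

set_option autoImplicit false

namespace Pool.Agent.Helper3.EL

open Finset Pool.Agent.Lead.TB Pool.Agent.Lead.TB.Halves Pool.Agent.Helper84.TL


namespace LdCore

lemma inv_le_log_sub {j : ℕ} (hj : 1 ≤ j) :
    1 / ((j : ℝ) + 1) ≤ Real.log ((j : ℝ) + 1) - Real.log j := by
  have hj0 : (0 : ℝ) < j := by exact_mod_cast hj
  have h := Real.one_sub_inv_le_log_of_pos (x := ((j : ℝ) + 1) / j) (by positivity)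
  rw [Real.log_div (by positivity) (by positivity)] at h
  refine le_trans (le_of_eq ?_) h
  field_simp
  ring

lemma sum_log_le {j : ℕ} (hj : 1 ≤ j) :
    ∑ i ∈ Icc 1 j, Real.log i ≤ ((j : ℝ) + 1) * Real.log j - j + 1 := by
  induction j, hj using Nat.le_induction with
  | base => simp
  | succ j hj ih =>
    rw [Finset.sum_Icc_succ_top (by omega)]
    have h := inv_le_log_sub hj
    have hj0 : (0 : ℝ) < (j : ℝ) + 1 := by positivity
    rw [div_le_iff₀ hj0] at h
    push_cast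
    nlinarith

lemma sum_inv_le {j : ℕ} (hj : 1 ≤ j) :
    ∑ i ∈ Icc 1 j, 1 / (i : ℝ) ≤ 1 + Real.log j := by
  induction j, hj using Nat.le_induction with
  | base => simp
  | succ j hj ih =>
    rw [Finset.sum_Icc_succ_top (by omega)]
    have h := inv_le_log_sub hj
    push_cast at h ⊢
    linarith

/-- the average of the exponent -/
noncomputable def av (j : ℕ) : ℝ :=
  (∑ i ∈ Icc 1 j, (Real.log i + 2 / (i : ℝ))) / (j : ℝ)

lemma av_le {j : ℕ} (hj : 1 ≤ j) :
    av j ≤ Real.log j - 1 + 3 * (1 + Real.log j) * (1 / (j : ℝ)) := by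
  have hj0 : (0 : ℝ) < j := by exact_mod_cast hj
  have h1 := sum_log_le hj
  have h2 := sum_inv_le hj
  unfold av
  rw [div_le_iff₀ hj0, Finset.sum_add_distrib]
  have h3 : ∑ i ∈ Icc 1 j, 2 / (i : ℝ) = 2 * ∑ i ∈ Icc 1 j, 1 / (i : ℝ) := by
    rw [Finset.mul_sum]
    exact Finset.sum_congr rfl (fun i _ => by ring)
  rw [h3]
  have h4 : (Real.log j - 1 + 3 * (1 + Real.log j) * (1 / (j : ℝ))) * j
      = (Real.log j - 1) * j + 3 * (1 + Real.log j) := by
    field_simp
  rw [h4]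
  linarith

lemma sum_av_le {n : ℕ} (hn : 1 ≤ n) :
    ∑ j ∈ Icc 1 n, av j ≤ ∑ j ∈ Icc 1 n, (Real.log j - 1) + 3 * (1 + Real.log n) ^ 2 := by
  have h1 : ∑ j ∈ Icc 1 n, av j
      ≤ ∑ j ∈ Icc 1 n, ((Real.log j - 1) + 3 * (1 + Real.log n) * (1 / (j : ℝ))) := by
    refine Finset.sum_le_sum (fun j hj => ?_)
    rw [Finset.mem_Icc] at hj
    refine (av_le hj.1).trans ?_
    have hj0 : (0 : ℝ) < j := by exact_mod_cast hj.1
    have h2 : Real.log j ≤ Real.log n := Real.log_le_log hj0 (by exact_mod_cast hj.2)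
    have h3 : (0 : ℝ) < 1 / (j : ℝ) := by positivity
    nlinarith
  refine h1.trans ?_
  rw [Finset.sum_add_distrib, ← Finset.mul_sum]
  have h2 := sum_inv_le hn
  have h3 : 0 ≤ Real.log n := Real.log_nonneg (by exact_mod_cast hn)
  nlinarith

lemma sum_fin {n : ℕ} (f : ℕ → ℝ) : ∑ s : Fin n, f (n - s.val) = ∑ j ∈ Icc 1 n, f j := by
  rw [Fin.sum_univ_eq_sum_range (fun s => f (n - s)) n]
  have h1 : ∑ s ∈ range n, f (n - s) = ∑ s ∈ range n, (fun j => f (j + 1)) (n - 1 - s) := by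
    refine Finset.sum_congr rfl (fun s hs => ?_)
    rw [Finset.mem_range] at hs
    show f (n - s) = f (n - 1 - s + 1)
    congr 1
    omega
  rw [h1, Finset.sum_range_reflect (fun j => f (j + 1)) n, Finset.range_eq_Ico,
    Finset.sum_Ico_add' f 0 n 1]
  rfl

end LdCore

open LdCore in
theorem ld_core_of {n m : ℕ} (hn : 1 ≤ n) {ι : Type} [Fintype ι] [DecidableEq ι]
    {Ω : Type} [Fintype Ω] [Nonempty Ω] (lam : Ω → ι ↪ Fin n)
    (e e' : Ω → Fin n → (ι ≃ Fin m × Bool)) {κ : ℝ} (hκ : 0 < κ)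
    (hlow : Real.exp (n * ∑ j ∈ Icc 1 n, (Real.log j - 1)) ≤ ((ls n).card : ℝ))
    (hrank : ∀ {L : Fin n → Equiv.Perm (Fin n)}, L ∈ ls n → ∀ (s r : Fin n) (F : ℕ → ℝ),
      (∑ ω : Equiv.Perm (Fin n), F (avl ω L s r).card) / (n.factorial : ℝ) =
        (∑ i ∈ Icc 1 (n - s.val), F i) / ((n - s.val : ℕ) : ℝ))
    (hfixed : ∀ ω : Equiv.Perm (Fin n), ∑ L ∈ ls n,
      Real.exp ((∑ w, (ncl (mR (e w)) (mC (e' w) fun x => L (lam w x)) : ℝ)) /
        (κ * Fintype.card Ω) -
      ∑ s, ∑ r, (Real.log (avl ω L s r).card + 2 / ((avl ω L s r).card : ℝ))) ≤ 1)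
    (t : ℝ) :
    (((ls n).filter fun L => κ * t ≤
      (∑ w, (ncl (mR (e w)) (mC (e' w) fun x => L (lam w x)) : ℝ)) / Fintype.card Ω).card : ℝ) ≤
      Real.exp (3 * n * (1 + Real.log n) ^ 2 - t) * ((ls n).card : ℝ) := by
  set X : (Fin n → Equiv.Perm (Fin n)) → ℝ := fun L =>
    (∑ w, (ncl (mR (e w)) (mC (e' w) fun x => L (lam w x)) : ℝ)) / (κ * Fintype.card Ω) with hX
  set A : Equiv.Perm (Fin n) → (Fin n → Equiv.Perm (Fin n)) → ℝ := fun ω L =>
    ∑ s, ∑ r, (Real.log (avl ω L s r).card + 2 / ((avl ω L s r).card : ℝ)) with hA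
  have hf0 : (0 : ℝ) < (n.factorial : ℝ) := by exact_mod_cast n.factorial_pos
  have hcardperm : (Fintype.card (Equiv.Perm (Fin n)) : ℝ) = (n.factorial : ℝ) := by
    rw [Fintype.card_perm, Fintype.card_fin]
  have hfix : ∀ ω, ∑ L ∈ ls n, Real.exp (X L - A ω L) ≤ 1 := hfixed
  -- the average of `A`
  have havg : ∀ L ∈ ls n, (∑ ω, A ω L) / (n.factorial : ℝ) = n * ∑ j ∈ Icc 1 n, av j := by
    intro L hL
    have h1 : (∑ ω, A ω L) / (n.factorial : ℝ)
        = ∑ s : Fin n, ∑ r : Fin n, (∑ ω : Equiv.Perm (Fin n),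
          (Real.log (avl ω L s r).card + 2 / ((avl ω L s r).card : ℝ))) / (n.factorial : ℝ) := by
      rw [hA]
      simp only
      rw [Finset.sum_comm, Finset.sum_div]
      refine Finset.sum_congr rfl (fun s _ => ?_)
      rw [Finset.sum_comm, Finset.sum_div]
    rw [h1]
    have h2 : ∀ s : Fin n, ∑ r : Fin n, (∑ ω : Equiv.Perm (Fin n),
          (Real.log (avl ω L s r).card + 2 / ((avl ω L s r).card : ℝ))) / (n.factorial : ℝ)
        = n * av (n - s.val) := by
      intro s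
      have h3 : ∀ r : Fin n, (∑ ω : Equiv.Perm (Fin n),
          (Real.log (avl ω L s r).card + 2 / ((avl ω L s r).card : ℝ))) / (n.factorial : ℝ)
          = av (n - s.val) := fun r =>
        hrank hL s r (fun i => Real.log i + 2 / (i : ℝ))
      simp only [h3]
      rw [Finset.sum_const, Finset.card_univ, Fintype.card_fin, nsmul_eq_mul]
    simp only [h2]
    rw [← Finset.mul_sum, sum_fin av]
  set A0 : ℝ := n * ∑ j ∈ Icc 1 n, av j with hA0
  -- Jensen
  have hjen : ∀ L ∈ ls n, Real.exp (X L - A0)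
      ≤ (∑ ω : Equiv.Perm (Fin n), Real.exp (X L - A ω L)) / (n.factorial : ℝ) := by
    intro L hL
    have h1 := convexOn_exp.map_sum_le (t := (univ : Finset (Equiv.Perm (Fin n))))
      (w := fun _ => 1 / (n.factorial : ℝ)) (p := fun ω => X L - A ω L)
      (fun _ _ => by positivity)
      (by
        rw [Finset.sum_const, Finset.card_univ, nsmul_eq_mul, hcardperm]
        field_simp)
      (fun _ _ => Set.mem_univ _)
    simp only [smul_eq_mul] at h1
    rw [← Finset.mul_sum, ← Finset.mul_sum, Finset.sum_sub_distrib, Finset.sum_const,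
      Finset.card_univ, nsmul_eq_mul, hcardperm] at h1
    have h2 : 1 / (n.factorial : ℝ) * ((n.factorial : ℝ) * X L - ∑ ω, A ω L) = X L - A0 := by
      rw [← havg L hL]
      field_simp
    rw [h2] at h1
    rw [div_eq_inv_mul, ← one_div]
    exact h1
  have hsum : ∑ L ∈ ls n, Real.exp (X L - A0) ≤ 1 := by
    calc ∑ L ∈ ls n, Real.exp (X L - A0)
        ≤ ∑ L ∈ ls n, (∑ ω : Equiv.Perm (Fin n), Real.exp (X L - A ω L)) / (n.factorial : ℝ) :=
          Finset.sum_le_sum hjen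
      _ = (∑ ω : Equiv.Perm (Fin n), ∑ L ∈ ls n, Real.exp (X L - A ω L)) / (n.factorial : ℝ) := by
          rw [← Finset.sum_div, Finset.sum_comm]
      _ ≤ (∑ ω : Equiv.Perm (Fin n), (1 : ℝ)) / (n.factorial : ℝ) :=
          div_le_div_of_nonneg_right (Finset.sum_le_sum fun ω _ => hfix ω) hf0.le
      _ = 1 := by
          rw [Finset.sum_const, Finset.card_univ, nsmul_eq_mul, hcardperm, mul_one,
            div_self hf0.ne']
  set B := (ls n).filter fun L => κ * t ≤
      (∑ w, (ncl (mR (e w)) (mC (e' w) fun x => L (lam w x)) : ℝ)) / Fintype.card Ω with hB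
  have hΩ : (0 : ℝ) < Fintype.card Ω := by exact_mod_cast Fintype.card_pos
  have hB1 : ∀ L ∈ B, Real.exp (t - A0) ≤ Real.exp (X L - A0) := by
    intro L hL
    rw [hB, Finset.mem_filter] at hL
    refine Real.exp_le_exp.2 (sub_le_sub_right ?_ _)
    rw [hX]
    simp only
    rw [le_div_iff₀ (mul_pos hκ hΩ)]
    have h1 := hL.2
    rw [le_div_iff₀ hΩ] at h1
    linarith
  have hB2 : (B.card : ℝ) * Real.exp (t - A0) ≤ 1 := by
    calc (B.card : ℝ) * Real.exp (t - A0) = ∑ L ∈ B, Real.exp (t - A0) := by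
          rw [Finset.sum_const, nsmul_eq_mul]
      _ ≤ ∑ L ∈ B, Real.exp (X L - A0) := Finset.sum_le_sum hB1
      _ ≤ ∑ L ∈ ls n, Real.exp (X L - A0) :=
          Finset.sum_le_sum_of_subset_of_nonneg (Finset.filter_subset _ _)
            (fun _ _ _ => (Real.exp_pos _).le)
      _ ≤ 1 := hsum
  have hB3 : (B.card : ℝ) ≤ Real.exp (A0 - t) := by
    have h1 : Real.exp (A0 - t) * Real.exp (t - A0) = 1 := by
      rw [← Real.exp_add]; simp
    have h2 := mul_le_mul_of_nonneg_left hB2 (Real.exp_pos (A0 - t)).le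
    calc (B.card : ℝ) = Real.exp (A0 - t) * ((B.card : ℝ) * Real.exp (t - A0)) := by
          rw [mul_comm (B.card : ℝ), ← mul_assoc, h1, one_mul]
      _ ≤ Real.exp (A0 - t) * 1 := h2
      _ = _ := mul_one _
  refine hB3.trans ?_
  calc Real.exp (A0 - t)
      ≤ Real.exp (3 * n * (1 + Real.log n) ^ 2 - t + n * ∑ j ∈ Icc 1 n, (Real.log j - 1)) := by
        refine Real.exp_le_exp.2 ?_
        have h1 := mul_le_mul_of_nonneg_left (sum_av_le hn) (Nat.cast_nonneg (α := ℝ) n)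
        rw [hA0]
        linarith
    _ = Real.exp (3 * n * (1 + Real.log n) ^ 2 - t)
          * Real.exp (n * ∑ j ∈ Icc 1 n, (Real.log j - 1)) := by rw [← Real.exp_add]
    _ ≤ _ := mul_le_mul_of_nonneg_left hlow (Real.exp_pos _).le

end Pool.Agent.Helper3.EL
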